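import Mathlib
import Pool.Agent.W811.Nd.Stm

set_option autoImplicit false

open Set Pool.Agent.W811.Stu Pool.Agent.W811.Nd

namespace Pool.Agent.W690.Nd

lemma cc_ge {lam : ℝ} (h : Big lam) : 5 * 10 ^ 7 ≤ cc (lam / 2) := by
  unfold Big at h
  have h1 := cc_sq (lam / 2)
  have h2 := cc_pos (lam / 2)
  have h3 : (5 * 10 ^ 7 : ℝ) ≤ lam / 2 := by linarith
  by_contra h4
  push Not at h4
  have : cc (lam / 2) ^ 2 < (lam / 2) ^ 2 := by
    apply pow_lt_pow_left₀ (by linarith) h2.le (by norm_num)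
  linarith

lemma contY (lam : ℝ) (d : ℕ → ℕ) (j : ℕ) : Continuous fun e => (orb d (lin lam e) j).y := by
  have := cont_toL_y ((cont_orb d j).comp (cont_lin lam))
  simpa only [Function.comp_def, ofL_toL] using this

/-- constant sign -/
lemma sgn {f : ℝ → ℝ} (hf : Continuous f) {a b c : ℝ} (hab : a < b) (hc : 0 < c)
    (h : ∀ e ∈ Icc a b, c ≤ |f e|) :
    (∀ e ∈ Icc a b, c ≤ f e) ∨ (∀ e ∈ Icc a b, f e ≤ -c) := by
  by_contra hcon
  push Not at hcon
  obtain ⟨⟨e, he, h1⟩, ⟨e', he', h2⟩⟩ := hcon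
  have h3 : f e ≤ -c := by
    have := h e he
    rcases le_abs.1 this with h4 | h4
    · linarith
    · linarith
  have h4 : c ≤ f e' := by
    have := h e' he'
    rcases le_abs.1 this with h4 | h4
    · linarith
    · linarith
  have hp : IsPreconnected (Icc a b) := isPreconnected_Icc
  have := hp.intermediate_value he he' hf.continuousOn
  have h0 : (0:ℝ) ∈ Icc (f e) (f e') := ⟨by linarith, by linarith⟩
  obtain ⟨x, hx, hx0⟩ := this h0
  have := h x hx
  rw [hx0, abs_zero] at this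
  linarith

theorem b2 (h : TBand) (h' : TSq) : TB2 := by
  intro lam d j a b hB hd hj hab hI hends
  have hlam : 0 < lam := by unfold Big at hB; linarith
  have hc := cc_ge hB
  set c := cc (lam / 2) with hcdef
  have hd' : ∀ q, 1 ≤ q → ∀ k, 1 ≤ Function.update d j q k := by
    intro q hq k
    by_cases hk : k = j
    · subst hk; rw [Function.update_self]; exact hq
    · rw [Function.update_of_ne hk]; exact hd k
  have e1 : ∀ e, (orb (Function.update d j 1) (lin lam e) (j + 1)).y = (orb d (lin lam e) j).x := by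
    intro e; rw [tf_eq_orb, tf_one]
  have e2 : ∀ e, (orb (Function.update d j 2) (lin lam e) (j + 1)).y =
      2 * (orb d (lin lam e) j).y * (orb d (lin lam e) j).x - (orb d (lin lam e) j).z := by
    intro e; rw [tf_eq_orb, tf_rec, tf_one, tf_zero]
  have e3 : ∀ e, (orb d (lin lam e) (j + 1)).y =
      2 * (orb d (lin lam e) j).y * (2 * (orb d (lin lam e) j).y * (orb d (lin lam e) j).x -
        (orb d (lin lam e) j).z) - (orb d (lin lam e) j).x := by
    intro e; rw [orb_succ_y, hj, tf_rec, tf_rec, tf_one, tf_zero]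
  have e4 : ∀ e, (orb d (lin lam e) (j + 1)).x =
      2 * (orb d (lin lam e) j).y * (orb d (lin lam e) (j + 1)).y -
      (2 * (orb d (lin lam e) j).y * (orb d (lin lam e) j).x - (orb d (lin lam e) j).z) := by
    intro e
    have t2 : tf d j 2 (lin lam e) =
        2 * (orb d (lin lam e) j).y * (orb d (lin lam e) j).x - (orb d (lin lam e) j).z := by
      have := e2 e; rw [tf_eq_orb] at this; exact this
    have t3 : tf d j (2 + 1) (lin lam e) = (orb d (lin lam e) (j + 1)).y := by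
      rw [orb_succ_y, hj]
    have h4 := tf_rec d j 2 (lin lam e)
    rw [t2, t3] at h4
    have t4 : (orb d (lin lam e) (j + 1)).x = tf d j (2 + 2) (lin lam e) := by
      rw [orb_succ_x, hj]
    rw [t4]
    exact h4
  -- squeeze
  have hsq : ∀ e ∈ Icc a b, |(orb d (lin lam e) (j + 1)).y| ≤ 1 →
      |(orb d (lin lam e) j).x| ≤ 1 / 10 ^ 6 ∧
      |2 * (orb d (lin lam e) j).y * (orb d (lin lam e) j).x - (orb d (lin lam e) j).z| ≤
        1 / 10 ^ 6 ∧ |(orb d (lin lam e) j).y ^ 2 - c ^ 2| ≤ 1 := by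
    intro e he hy
    have h0 := hI e he
    have := h' (lam / 2) (orb d (lin lam e) j) (by unfold Big at hB; linarith)
      ((onS_lin lam e).orb d j) h0.1 (by linarith [h0.2.1]) (by
        rw [orb_succ_y, hj] at hy; exact hy)
    refine ⟨this.1, ?_, this.2.2⟩
    have h2 := this.2.1
    have h3 : (stepR^[2] (orb d (lin lam e) j)).z = tf d j 2 (lin lam e) := rfl
    rw [h3, tf_rec, tf_one, tf_zero] at h2
    exact h2
  have hs := sgn (contY lam d j) hab (by linarith : 0 < 4 / 5 * c) (fun e he => (hI e he).2.1)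
  -- first band
  obtain ⟨a1, b1, ha1, hab1, hb1, hiff1, hend1⟩ := h lam (Function.update d j 1) (j + 1) a b hlam
    (hd' 1 le_rfl) hab (fun e he => by rw [e1]; exact (hI e he).2.2.2) (1 / 4) (by norm_num)
    (by rw [e1, e1]; exact hends)
  have hsub1 : ∀ e ∈ Icc a1 b1, e ∈ Icc a b := fun e he => ⟨by linarith [he.1], by linarith [he.2]⟩
  have hx1 : ∀ e ∈ Icc a1 b1, |(orb d (lin lam e) j).x| ≤ 1 / 4 := fun e he => by
    have := (hiff1 e (hsub1 e he)).1 he
    rwa [e1] at this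
  rw [e1, e1] at hend1
  have ha1m : a1 ∈ Icc a b := hsub1 a1 ⟨le_rfl, hab1.le⟩
  have hb1m : b1 ∈ Icc a b := hsub1 b1 ⟨hab1.le, le_rfl⟩
  -- second band
  have hlt2 : ∀ e ∈ Icc a1 b1, |(orb (Function.update d j 2) (lin lam e) (j + 1)).y| < c := by
    intro e he
    rw [e2]
    have h0 := hI e (hsub1 e he)
    have h1 := hx1 e he
    have h2 : |2 * (orb d (lin lam e) j).y * (orb d (lin lam e) j).x| ≤ 2 * (6 / 5 * c) * (1 / 4) := by
      rw [abs_mul, abs_mul, abs_two]
      apply mul_le_mul (by linarith [h0.2.2.1]) h1 (abs_nonneg _) (by linarith)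
    have h3 := abs_sub (2 * (orb d (lin lam e) j).y * (orb d (lin lam e) j).x)
      ((orb d (lin lam e) j).z)
    linarith [h0.1]
  have hends2 : ((orb (Function.update d j 2) (lin lam a1) (j + 1)).y < -(1 / 3) ∧
      1 / 3 < (orb (Function.update d j 2) (lin lam b1) (j + 1)).y ∨
      1 / 3 < (orb (Function.update d j 2) (lin lam a1) (j + 1)).y ∧
      (orb (Function.update d j 2) (lin lam b1) (j + 1)).y < -(1 / 3)) := by
    rw [e2, e2]
    have z1 := abs_le.1 (hI a1 ha1m).1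
    have z2 := abs_le.1 (hI b1 hb1m).1
    rcases hs with hs | hs
    · have y1 := hs a1 ha1m
      have y2 := hs b1 hb1m
      rcases hend1 with ⟨p1, p2⟩ | ⟨p1, p2⟩
      · left; rw [p1, p2]; constructor <;> linarith [z1.1, z1.2, z2.1, z2.2]
      · right; rw [p1, p2]; constructor <;> linarith [z1.1, z1.2, z2.1, z2.2]
    · have y1 := hs a1 ha1m
      have y2 := hs b1 hb1m
      rcases hend1 with ⟨p1, p2⟩ | ⟨p1, p2⟩
      · right; rw [p1, p2]; constructor <;> linarith [z1.1, z1.2, z2.1, z2.2]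
      · left; rw [p1, p2]; constructor <;> linarith [z1.1, z1.2, z2.1, z2.2]
  obtain ⟨a2, b2, ha2, hab2, hb2, hiff2, hend2⟩ := h lam (Function.update d j 2) (j + 1) a1 b1 hlam
    (hd' 2 (by norm_num)) hab1 hlt2 (1 / 3) (by norm_num) hends2
  have hsub2 : ∀ e ∈ Icc a2 b2, e ∈ Icc a1 b1 := fun e he => ⟨by linarith [he.1], by linarith [he.2]⟩
  have hx2 : ∀ e ∈ Icc a2 b2, |2 * (orb d (lin lam e) j).y * (orb d (lin lam e) j).x -
      (orb d (lin lam e) j).z| ≤ 1 / 3 := fun e he => by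
    have := (hiff2 e (hsub2 e he)).1 he
    rwa [e2] at this
  rw [e2, e2] at hend2
  have ha2m1 : a2 ∈ Icc a1 b1 := hsub2 a2 ⟨le_rfl, hab2.le⟩
  have hb2m1 : b2 ∈ Icc a1 b1 := hsub2 b2 ⟨hab2.le, le_rfl⟩
  have ha2m := hsub1 a2 ha2m1
  have hb2m := hsub1 b2 hb2m1
  -- third band
  have hlt3 : ∀ e ∈ Icc a2 b2, |(orb d (lin lam e) (j + 1)).y| < c := by
    intro e he
    rw [e3]
    have h0 := hI e (hsub1 e (hsub2 e he))
    have h1 := hx1 e (hsub2 e he)
    have h1' := hx2 e he
    set w := 2 * (orb d (lin lam e) j).y * (orb d (lin lam e) j).x - (orb d (lin lam e) j).z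
    have h2 : |2 * (orb d (lin lam e) j).y * w| ≤ 2 * (6 / 5 * c) * (1 / 3) := by
      rw [abs_mul, abs_mul, abs_two]
      apply mul_le_mul (by linarith [h0.2.2.1]) h1' (abs_nonneg _) (by linarith)
    have h3 := abs_sub (2 * (orb d (lin lam e) j).y * w) ((orb d (lin lam e) j).x)
    linarith [h0.1]
  have hends3 : ((orb d (lin lam a2) (j + 1)).y < -1 ∧ 1 < (orb d (lin lam b2) (j + 1)).y ∨
      1 < (orb d (lin lam a2) (j + 1)).y ∧ (orb d (lin lam b2) (j + 1)).y < -1) := by
    rw [e3, e3]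
    have z1 := abs_le.1 (hx1 a2 ha2m1)
    have z2 := abs_le.1 (hx1 b2 hb2m1)
    rcases hs with hs | hs
    · have y1 := hs a2 ha2m
      have y2 := hs b2 hb2m
      rcases hend2 with ⟨p1, p2⟩ | ⟨p1, p2⟩
      · left; rw [p1, p2]; constructor <;> linarith [z1.1, z1.2, z2.1, z2.2]
      · right; rw [p1, p2]; constructor <;> linarith [z1.1, z1.2, z2.1, z2.2]
    · have y1 := hs a2 ha2m
      have y2 := hs b2 hb2m
      rcases hend2 with ⟨p1, p2⟩ | ⟨p1, p2⟩
      · right; rw [p1, p2]; constructor <;> linarith [z1.1, z1.2, z2.1, z2.2]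
      · left; rw [p1, p2]; constructor <;> linarith [z1.1, z1.2, z2.1, z2.2]
  obtain ⟨u, v, hu, huv, hv, hiff3, hend3⟩ := h lam d (j + 1) a2 b2 hlam hd hab2 hlt3 1
    (by norm_num) hends3
  have hsub3 : ∀ e ∈ Icc u v, e ∈ Icc a2 b2 := fun e he => ⟨by linarith [he.1], by linarith [he.2]⟩
  have hy3 : ∀ e ∈ Icc u v, |(orb d (lin lam e) (j + 1)).y| ≤ 1 := fun e he =>
    (hiff3 e (hsub3 e he)).1 he
  refine ⟨u, v, by linarith, huv, by linarith, ⟨huv, hy3, hend3, ?_, ?_⟩, ?_⟩
  · intro hf; simp at hf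
  · intro _ e he
    have hm := hsub1 e (hsub2 e (hsub3 e he))
    obtain ⟨s1, s2, s3⟩ := hsq e hm (hy3 e he)
    have hz : (orb d (lin lam e) (j + 1)).z = (orb d (lin lam e) j).y := orb_succ_z d _ j
    rw [← hcdef, hz]
    have s3' := abs_le.1 s3
    have hsqabs : |(orb d (lin lam e) j).y| ^ 2 = (orb d (lin lam e) j).y ^ 2 := sq_abs _
    have h0 := hI e hm
    refine ⟨?_, ?_, ?_⟩
    · by_contra hlt
      push Not at hlt
      have : |(orb d (lin lam e) j).y| ^ 2 < (9 / 10 * c) ^ 2 :=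
        pow_lt_pow_left₀ hlt (abs_nonneg _) (by norm_num)
      nlinarith
    · by_contra hlt
      push Not at hlt
      have : (11 / 10 * c) ^ 2 < |(orb d (lin lam e) j).y| ^ 2 :=
        pow_lt_pow_left₀ hlt (by linarith) (by norm_num)
      nlinarith
    · rw [e4]
      have : 2 * (orb d (lin lam e) (j + 1)).y * (orb d (lin lam e) j).y -
          (2 * (orb d (lin lam e) j).y * (orb d (lin lam e) (j + 1)).y -
          (2 * (orb d (lin lam e) j).y * (orb d (lin lam e) j).x - (orb d (lin lam e) j).z)) =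
          2 * (orb d (lin lam e) j).y * (orb d (lin lam e) j).x - (orb d (lin lam e) j).z := by ring
      rw [this]
      exact s2.trans (by norm_num)
  · intro e he hy
    obtain ⟨s1, s2, s3⟩ := hsq e he hy
    have m1 : e ∈ Icc a1 b1 := (hiff1 e he).2 (by rw [e1]; exact s1.trans (by norm_num))
    have m2 : e ∈ Icc a2 b2 := (hiff2 e m1).2 (by rw [e2]; exact s2.trans (by norm_num))
    exact (hiff3 e m2).2 hy

end Pool.Agent.W690.Nd
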